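import Mathlib

namespace Pool.Agent.Results.MP_8b9f13_co.NotLogConcave

/-- a semilabelled binary tree of size `n`: a finite tree (on `Fin m`) with all degrees `1` or `3`,
whose degree-one vertices are labelled bijectively by `Fin n` -/
structure PTree (n : ℕ) where
  m : ℕ
  G : SimpleGraph (Fin m)
  tree : G.IsTree
  deg : ∀ v, (G.neighborSet v).ncard = 1 ∨ (G.neighborSet v).ncard = 3
  leaf : Fin n → Fin m
  inj : Function.Injective leaf
  leaf_iff : ∀ v, (G.neighborSet v).ncard = 1 ↔ v ∈ Set.range leaf

/-- the partitions of the labels obtained by deleting a set `D` of edges -/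
def chars {n : ℕ} (T : PTree n) : Set (Setoid (Fin n)) :=
  {r | ∃ D : Set (Sym2 (Fin T.m)),
    ∀ i j, r i j ↔ (T.G.deleteEdges D).Reachable (T.leaf i) (T.leaf j)}

/-- at least two classes of size at least `2` -/
def Nontriv {n : ℕ} (r : Setoid (Fin n)) : Prop :=
  ∃ A ∈ r.classes, ∃ B ∈ r.classes, A ≠ B ∧ 2 ≤ A.ncard ∧ 2 ≤ B.ncard

/-- the number of non-trivial common partitions with exactly `k` classes -/
noncomputable def a {n : ℕ} (T F : PTree n) (k : ℕ) : ℕ :=
  {r | r ∈ chars T ∧ r ∈ chars F ∧ r.classes.ncard = k ∧ Nontriv r}.ncard

abbrev W := Fin 22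

def gr (par : W → W) : SimpleGraph W := SimpleGraph.fromRel fun x y => par x = y

instance (par : W → W) : DecidableRel (gr par).Adj := fun x y =>
  decidable_of_iff (x ≠ y ∧ (par x = y ∨ par y = x)) (by simp [gr, SimpleGraph.fromRel_adj])

def top (par : W → W) (lab : W → ℕ) : ℕ → W → W
  | 0, x => x
  | k + 1, x => if lab (par x) = lab x then top par lab k (par x) else x

def cutE (lab : W → ℕ) : Set (Sym2 W) := {e | ∃ x y, e = s(x, y) ∧ lab x ≠ lab y}

lemma adj_cut {par : W → W} {lab : W → ℕ} {x y : W} :
    ((gr par).deleteEdges (cutE lab)).Adj x y ↔ (gr par).Adj x y ∧ lab x = lab y := by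
  rw [SimpleGraph.deleteEdges_adj]
  refine and_congr_right fun _ => ⟨fun h => ?_, fun h => ?_⟩
  · by_contra hc
    exact h ⟨x, y, rfl, hc⟩
  · rintro ⟨u, v, h1, h2⟩
    rcases Sym2.eq_iff.1 h1 with ⟨rfl, rfl⟩ | ⟨rfl, rfl⟩
    · exact h2 h
    · exact h2 h.symm

lemma reach_top (par : W → W) (lab : W → ℕ) (k : ℕ) (x : W) :
    ((gr par).deleteEdges (cutE lab)).Reachable x (top par lab k x) := by
  induction k generalizing x with
  | zero => rfl
  | succ k ih =>
    unfold top
    split_ifs with h
    · refine SimpleGraph.Reachable.trans ?_ (ih _)
      by_cases hx : x = par x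
      · rw [← hx]
      · refine SimpleGraph.Adj.reachable (adj_cut.2 ⟨?_, h.symm⟩)
        simp [gr, SimpleGraph.fromRel_adj, hx]
    · rfl

lemma lab_eq {par : W → W} {lab : W → ℕ} {x y : W}
    (h : ((gr par).deleteEdges (cutE lab)).Reachable x y) : lab x = lab y := by
  obtain ⟨w⟩ := h
  induction w with
  | nil => rfl
  | cons h _ ih => exact (adj_cut.1 h).2.trans ih

def lf (i : Fin 12) : W := Fin.castLE (by norm_num) i

lemma deg_eq (par : W → W) (v : W) : ((gr par).neighborSet v).ncard = (gr par).degree v := by
  rw [← SimpleGraph.card_neighborFinset_eq_degree, ← Set.ncard_coe_finset,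
    SimpleGraph.coe_neighborFinset]

def mkT (par : W → W) (h1 : ∀ x, top par (fun _ => 0) 22 x = 0)
    (h2 : ∀ v, (gr par).degree v = if v.1 < 12 then 1 else 3) : PTree 12 where
  m := 22
  G := gr par
  tree := by
    rw [SimpleGraph.isTree_iff_connected_and_card]
    constructor
    · have key : ∀ x, (gr par).Reachable x 0 := fun x => by
        have := reach_top par (fun _ => 0) 22 x
        rw [h1] at this
        exact this.mono (SimpleGraph.deleteEdges_le _)
      exact ⟨fun x y => (key x).trans (key y).symm⟩
    · have h3 := (gr par).sum_degrees_eq_twice_card_edges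
      simp only [h2] at h3
      have h4 : (∑ v : W, if v.1 < 12 then 1 else 3) = 42 := by decide +kernel
      have h5 : Nat.card (gr par).edgeSet = (gr par).edgeFinset.card := by
        rw [SimpleGraph.edgeFinset_card, Nat.card_eq_fintype_card]
      rw [h5, Nat.card_eq_fintype_card, Fintype.card_fin]
      omega
  deg := fun v => by
    rw [deg_eq, h2]
    split_ifs <;> simp
  leaf := lf
  inj := fun _ _ h => Fin.castLE_injective (by norm_num) h
  leaf_iff := fun v => by
    rw [deg_eq, h2]
    constructor
    · intro h
      split_ifs at h with hv
      · exact ⟨⟨v.1, hv⟩, rfl⟩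
      · omega
    · rintro ⟨i, rfl⟩
      have : (lf i).1 < 12 := i.2
      simp [this]

lemma sep {par : W → W} {col : W → W → ℕ}
    (hc : ∀ v x, x ≠ v → par x ≠ v → col v x = col v (par x))
    {H : SimpleGraph W} (hH : H ≤ gr par) {v x y : W} (h : H.Reachable x y)
    (hxy : col v x ≠ col v y) : H.Reachable x v := by
  obtain ⟨w⟩ := h
  induction w with
  | nil => exact absurd rfl hxy
  | @cons x z y h _ ih =>
    by_cases hx : x = v
    · rw [hx]
    by_cases hz : z = v
    · exact hz ▸ h.reachable
    have h1 := hH h
    simp only [gr, SimpleGraph.fromRel_adj] at h1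
    have h2 : col v x = col v z := by
      rcases h1.2 with h3 | h3
      · rw [← h3]; exact hc v x hx (h3 ▸ hz)
      · rw [← h3]; exact (hc v z hz (h3 ▸ hx)).symm
    exact h.reachable.trans (ih (h2 ▸ hxy))

lemma quart {par : W → W} {col : W → W → ℕ} {M : ℕ → ℕ → ℕ}
    (hc : ∀ v x, x ≠ v → par x ≠ v → col v x = col v (par x))
    (hM : ∀ i j : Fin 12, M i j < 2 ^ 22 ∧
      ∀ v : W, (M i j).testBit v = true → col v (lf i) ≠ col v (lf j))
    {h1 h2} {r : Setoid (Fin 12)} (hr : r ∈ chars (mkT par h1 h2)) {i j k l : Fin 12}
    (hij : r i j) (hkl : r k l) (hik : ¬ r i k) : M i j &&& M k l = 0 := by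
  by_contra hne
  obtain ⟨v, hv⟩ := Nat.exists_testBit_of_ne_zero hne
  rw [Nat.testBit_and, Bool.and_eq_true] at hv
  have hv' : v < 22 := by
    by_contra hlt
    have : M i j < 2 ^ v := (hM i j).1.trans_le (Nat.pow_le_pow_right (by norm_num) (by omega))
    rw [Nat.testBit_lt_two_pow this] at hv
    exact Bool.false_ne_true hv.1
  obtain ⟨D, hD⟩ : ∃ D : Set (Sym2 W),
    ∀ i j, r i j ↔ ((gr par).deleteEdges D).Reachable (lf i) (lf j) := hr
  have e1 := sep hc (SimpleGraph.deleteEdges_le D) ((hD i j).1 hij) ((hM i j).2 ⟨v, hv'⟩ hv.1)
  have e2 := sep hc (SimpleGraph.deleteEdges_le D) ((hD k l).1 hkl) ((hM k l).2 ⟨v, hv'⟩ hv.2)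
  exact hik ((hD i k).2 (e1.trans e2.symm))

lemma card_classes {r : Setoid (Fin 12)} {σ : Fin 12 → Fin 12} (h1 : ∀ i, r i (σ i))
    (h2 : ∀ i j, r i j → σ i = σ j) :
    r.classes.ncard = (Finset.univ.filter fun i => σ i = i).card := by
  rw [← Set.ncard_coe_finset]
  symm
  refine Set.ncard_congr (fun i _ => {x | r x i}) (fun i _ => r.mem_classes i) ?_ ?_
  · intro i j hi hj h
    simp only [Finset.coe_filter, Finset.mem_univ, true_and, Set.mem_ofPred_eq] at hi hj
    have : i ∈ {x | r x j} := h ▸ r.refl' i
    rw [← hi, ← hj]
    exact h2 _ _ this
  · rintro _ ⟨y, rfl⟩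
    refine ⟨σ y, by simpa using h2 _ _ (r.symm' (h1 y)), ?_⟩
    ext x
    exact ⟨fun h => r.trans' h (r.symm' (h1 y)), fun h => r.trans' h (h1 y)⟩

lemma nontriv_iff {r : Setoid (Fin 12)} {σ : Fin 12 → Fin 12} (h1 : ∀ i, r i (σ i))
    (h2 : ∀ i j, r i j → σ i = σ j) :
    Nontriv r ↔ ∃ i j, σ i ≠ i ∧ σ j ≠ j ∧ σ i ≠ σ j := by
  have key : ∀ y, 2 ≤ {x | r x y}.ncard ↔ ∃ i, σ i ≠ i ∧ σ i = σ y := fun y => by
    rw [show (2 ≤ {x | r x y}.ncard) = (1 < {x | r x y}.ncard) from rfl,
      Set.one_lt_ncard (Set.toFinite _)]
    constructor
    · rintro ⟨u, hu, v, hv, huv⟩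
      by_cases h : σ u = u
      · refine ⟨v, fun h' => huv ?_, h2 _ _ hv⟩
        rw [← h, ← h', h2 _ _ hu, h2 _ _ hv]
      · exact ⟨u, h, h2 _ _ hu⟩
    · rintro ⟨i, hi, h⟩
      have h3 : r (σ i) y := h ▸ r.symm' (h1 y)
      exact ⟨σ i, h3, i, r.trans' (h1 i) h3, hi⟩
  constructor
  · rintro ⟨_, ⟨y, rfl⟩, _, ⟨z, rfl⟩, hne, hy, hz⟩
    obtain ⟨i, hi, hi'⟩ := (key y).1 hy
    obtain ⟨j, hj, hj'⟩ := (key z).1 hz
    refine ⟨i, j, hi, hj, fun h => hne ?_⟩
    have h3 : r y z := r.trans' (h1 y) (by rw [← hi', h, hj']; exact r.symm' (h1 z))
    ext x
    exact ⟨fun h => r.trans' h h3, fun h => r.trans' h (r.symm' h3)⟩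
  · rintro ⟨i, j, hi, hj, hij⟩
    refine ⟨_, r.mem_classes i, _, r.mem_classes j, fun h => hij ?_, (key i).2 ⟨i, hi, rfl⟩,
      (key j).2 ⟨j, hj, rfl⟩⟩
    have : i ∈ {x | r x j} := h ▸ r.refl' i
    exact h2 _ _ this

instance : Finite (Setoid (Fin 12)) :=
  Finite.of_injective (fun r : Setoid (Fin 12) => r.r) fun _ _ h => Setoid.ext fun x y =>
    iff_of_eq (congrFun (congrFun h x) y)

def par1 (x : W) : W := ([0, 21, 12, 18, 20, 16, 19, 17, 17, 20, 16, 21, 0, 12, 13, 13, 18, 14, 15, 15, 14, 19] : List W).getD x 0

def par2 (x : W) : W := ([0, 14, 14, 15, 21, 18, 21, 18, 19, 15, 19, 16, 20, 12, 13, 17, 0, 12, 13, 20, 16, 17] : List W).getD x 0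

def col1 (v x : W) : ℕ := ([0, 0, 0, 0, 0, 0, 0, 0, 0, 0, 0, 0, 11728090475160, 10610995980680, 2216203731456, 9418872726600, 2098176, 147456, 8592033856, 8796101414920, 524544, 8388612] : List ℕ).getD v 0 >>> (2 * x.1) % 4

def col2 (v x : W) : ℕ := ([0, 0, 0, 0, 0, 0, 0, 0, 0, 0, 0, 0, 8901655815828, 137707423764, 36, 524352, 11719529900712, 8797167034944, 33792, 2162688, 5035130246484, 8448] : List ℕ).getD v 0 >>> (2 * x.1) % 4

def M1 (a b : ℕ) : ℕ := 78018556546352763109363122547009752107021713583045667346218784819831649939404921305203993978498561342155418952604486220339362683929754130804303490349426462224702236856438964229094732769957234926868988434119656823531733672051847122872767749663044449111793692223197065677930100064306625228383279425538884248622210690671200541427044981808927058304861391761182324685623002692153315332505538136319925469204544356044661343802384793136972314423580929363612700964526407251627145588164113960915422833241813649647003781866619231270231976913320043374343617678111747831712620847462371107221901815145620668589554223953736087335892541806761906030014144780996163813013890592861202026648686366907188652167410472167372363807165622287422615713169830723701313952897587511355299025790320318961327379328235748694043342788556358937994647503698516302158104306530437926563453073270589837199608141059363401389520090170377823590891700487587660040035610219741991897441239040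 >>> (22 * (12 * a + b)) % 4194304

def M2 (a b : ℕ) : ℕ := 42867333983710878162570896527835020149051816209931355269324812888983478793211509959168543580094425806594635748518951659321925051912339742355109194567332755471224412001981235120106205103290392330868763000440956697999673223598701295324498581737017631688740583941586244718376024236067738087235541549536815606504077437770321192478677552968460526157530733890921735464940770491094278418606698822836459530448136492254154339042092327073149740058706629312593650796140328528761771633172598301063121081073087816725160763323768956056817682014222747668749764885120827198896723339858816143049193380846543594389640151955373191287143286040403883762802988817707218247103429557830546961528163107986900557431617012879007794657318802252519394355248374978518594586744568098256639114945442777031643660726838157354748911740323542371278095534927080632852513656154912360648049447124764788935293769039561122213686568252489869236329441504089311815415928155314589115699167232 >>> (22 * (12 * a + b)) % 4194304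

def L8 : List (List (ℕ × ℕ)) :=
  [[(9, 4), (5, 0), (2, 0), (1, 0)],
   [(9, 4), (7, 0), (2, 0), (1, 0)],
   [(9, 4), (8, 0), (2, 0), (1, 0)],
   [(10, 0), (9, 4), (2, 0), (1, 0)],
   [(11, 0), (9, 4), (2, 0), (1, 0)],
   [(9, 4), (7, 0), (5, 0), (1, 0)],
   [(9, 4), (8, 0), (5, 0), (1, 0)],
   [(10, 0), (9, 4), (5, 0), (1, 0)],
   [(11, 0), (9, 4), (5, 0), (1, 0)],
   [(9, 4), (8, 0), (7, 0), (1, 0)],
   [(10, 0), (9, 4), (7, 0), (1, 0)],
   [(11, 0), (9, 4), (7, 0), (1, 0)],
   [(10, 0), (9, 4), (8, 0), (1, 0)],
   [(11, 0), (9, 4), (8, 0), (1, 0)],
   [(11, 0), (10, 0), (9, 4), (1, 0)],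
   [(9, 3), (6, 3), (4, 3), (2, 0)],
   [(9, 4), (7, 0), (5, 0), (2, 0)],
   [(9, 4), (8, 0), (5, 0), (2, 0)],
   [(10, 0), (9, 4), (5, 0), (2, 0)],
   [(11, 0), (9, 4), (5, 0), (2, 0)],
   [(8, 0), (7, 0), (6, 3), (2, 0)],
   [(9, 4), (8, 0), (7, 0), (2, 0)],
   [(10, 0), (9, 4), (7, 0), (2, 0)],
   [(11, 0), (9, 4), (7, 0), (2, 0)],
   [(10, 0), (9, 4), (8, 0), (2, 0)],
   [(11, 0), (9, 4), (8, 0), (2, 0)],
   [(11, 0), (10, 0), (9, 4), (2, 0)],
   [(9, 4), (7, 1), (5, 1), (2, 1)],
   [(9, 4), (8, 1), (5, 1), (2, 1)],
   [(9, 4), (8, 4), (5, 1), (2, 1)],
   [(10, 1), (9, 4), (5, 1), (2, 1)],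
   [(11, 1), (9, 4), (5, 1), (2, 1)],
   [(9, 4), (8, 1), (7, 1), (2, 1)],
   [(10, 1), (9, 4), (7, 1), (2, 1)],
   [(11, 1), (9, 4), (7, 1), (2, 1)],
   [(9, 4), (8, 4), (7, 4), (2, 1)],
   [(10, 1), (9, 4), (8, 1), (2, 1)],
   [(11, 1), (9, 4), (8, 1), (2, 1)],
   [(11, 1), (10, 1), (9, 4), (2, 1)],
   [(8, 0), (6, 1), (5, 1), (3, 1)],
   [(9, 0), (8, 0), (5, 1), (4, 0)],
   [(11, 10), (9, 2), (7, 2), (4, 2)],
   [(9, 3), (8, 7), (6, 3), (4, 3)],
   [(10, 5), (9, 3), (6, 3), (4, 3)],
   [(11, 1), (9, 3), (6, 3), (4, 3)],
   [(9, 4), (8, 0), (7, 0), (5, 0)],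
   [(10, 0), (9, 4), (7, 0), (5, 0)],
   [(11, 0), (9, 4), (7, 0), (5, 0)],
   [(10, 0), (9, 4), (8, 0), (5, 0)],
   [(11, 0), (9, 4), (8, 0), (5, 0)],
   [(11, 0), (10, 0), (9, 4), (5, 0)],
   [(9, 4), (8, 1), (7, 1), (5, 1)],
   [(10, 1), (9, 4), (7, 1), (5, 1)],
   [(11, 1), (9, 4), (7, 1), (5, 1)],
   [(10, 1), (9, 4), (8, 1), (5, 1)],
   [(11, 1), (9, 4), (8, 1), (5, 1)],
   [(11, 1), (10, 1), (9, 4), (5, 1)],
   [(9, 4), (8, 2), (7, 2), (5, 2)],
   [(10, 2), (9, 4), (7, 2), (5, 2)],
   [(11, 2), (9, 4), (7, 2), (5, 2)],
   [(10, 2), (9, 4), (8, 2), (5, 2)],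
   [(11, 2), (9, 4), (8, 2), (5, 2)],
   [(11, 2), (10, 2), (9, 4), (5, 2)],
   [(11, 3), (10, 3), (7, 2), (6, 3)],
   [(10, 0), (9, 4), (8, 0), (7, 0)],
   [(11, 0), (9, 4), (8, 0), (7, 0)],
   [(11, 0), (10, 0), (9, 4), (7, 0)],
   [(10, 1), (9, 4), (8, 1), (7, 1)],
   [(11, 1), (9, 4), (8, 1), (7, 1)],
   [(11, 1), (10, 1), (9, 4), (7, 1)],
   [(10, 2), (9, 4), (8, 2), (7, 2)],
   [(11, 2), (9, 4), (8, 2), (7, 2)],
   [(11, 2), (10, 2), (9, 4), (7, 2)],
   [(11, 0), (9, 4), (8, 4), (7, 4)],
   [(11, 0), (10, 0), (9, 4), (7, 4)],
   [(10, 5), (9, 4), (8, 5), (7, 5)],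
   [(11, 5), (9, 4), (8, 5), (7, 5)],
   [(11, 5), (10, 5), (9, 4), (7, 5)],
   [(11, 0), (10, 0), (9, 4), (8, 0)],
   [(11, 1), (10, 1), (9, 4), (8, 1)],
   [(11, 2), (10, 2), (9, 4), (8, 2)],
   [(11, 5), (10, 5), (9, 4), (8, 5)],
   [(11, 7), (10, 7), (9, 4), (8, 7)]]

def L7 : List (ℕ × ℕ) :=
  [(5070602400913325331293117972480, 163012099266719920448385992196096),
   (5070602400913325322737543118848, 162259431722834409232691749814272),
   (5071260073087467120849366122496, 162259431722834397982488774410240),
   (5071260073087082063081225945088, 163012099266719524131859301761024),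
   (5092904664433576001512172257280, 162259431722834409232451399417856),
   (5070602400913314072294217318400, 162259431722834397982248424013824),
   (5092904664433179693541056675840, 163012099266719524131618951364608),
   (5070602400913314063738642464768, 162281714643541534818641033396224),
   (5092904664433179684985481822208, 162281714643541149760872893218816),
   (5071260073087070804082325291008, 162281714643541138510669917814784),
   (5070602400913325322497024952320, 162259431722834409232451231647744),
   (5070602400913314072294049548288, 162259431722834397982248256243712),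
   (5070602400912929014525909370880, 163012099266719524131618783594496),
   (5070602400913314063738474694656, 162259431722834397973692681390080),
   (5070602400912929005970334517248, 162259431722834012915924541212672),
   (5071260073087070804082157520896, 162259431722834001665721565808640),
   (5070602400913314063498124298240, 162259431722834397973452330993664),
   (5092904664433179684744963655680, 162259431722834012915684190816256),
   (5070602400912917755527008716800, 162259431722834001665481215412224),
   (5070602400912917746971433863168, 162281714643541138501873824794624),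
   (857684473298168994335420246491168, 162259431722834409232451231645728),
   (857684473298168983085217271087136, 162259431722834397982248256241696),
   (5070602400912929014525909368864, 163012099266719524131618783592480),
   (857684473298168983076661696233504, 162259431722834397973692681388064),
   (5070602400912929005970334515232, 162259431722834012915924541210656),
   (5071260073087070804082157518880, 162259431722834001665721565806624),
   (857684473298168983076421345837088, 162259431722834397973452330991648),
   (5092904664433179684744963653664, 162259431722834012915684190814240),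
   (5070602400912917755527008714784, 162259431722834001665481215410208),
   (5070602400912917746971433861152, 162281714643541138501873824792608),
   (45676313563062700896686467810336, 163567953688390808048589743424544),
   (45676313563062690771283887621152, 163567953688390797923187163235360),
   (45676313563062340616412859565088, 164280989017131532587220410139680),
   (45676313563062690763793464656928, 163567953688390797915696740271136),
   (45676313563062340608922436600864, 163567935554503153541388091622432),
   (45676932548429664242983652918304, 163567935554503143415985511433248),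
   (45676313563062690763587440444448, 163567953688390797915490716058656),
   (45697376677617486292827318092832, 163567935554503153541182067409952),
   (45676313563062330483313832199200, 163567935554503143415779487220768),
   (45676313563062330475823409234976, 163588980535170994872962349368352),
   (857684473298168983076421178066976, 162259431739362680663495921469472),
   (5070602400912929005729816348704, 162259431739362295605727781292064),
   (5070602400912917755526840944672, 162259431739362284355524805888032),
   (5070602400912917746971266091040, 162259431739362284346969231034400),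
   (45676313563075372900137981544480, 163567953688390797915490581841952),
   (45676313563075022745266953488416, 163567935554503153541181933193248),
   (45676313563075012619864373299232, 163567935554503143415779353004064),
   (45676313563075012612373950335008, 163567935554503143408288930039840),
   (857687029045346790443217328375840, 164876456311134084023462205163552),
   (86282024725211752211702739994656, 164876439386172294166679843342368),
   (86282024725211743211100555020320, 164876439386172285166077658368032),
   (86282024725211743204675283945504, 164876439386172285159652387293216),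
   (5070602400912917746730915694624, 162259431739362284346728880637984),
   (45676313563075012612167926122528, 163567935554503143408082905827360),
   (86282024725211743204503585916960, 164876439386172285159480689264672),
   (208099158211668051841694839179296, 168801950891805035000130741307424)]

def L9 : List (ℕ × ℕ) :=
  [(5093562336607729058863581855744, 163034382187427057293574862372864),
   (5071260073087478379848434550784, 163012099266719920448626510366720),
   (5092904664433576010308265281536, 163012099266719920448386159970304),
   (5092904664433576001752690427904, 162281714643541546077640101824512),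
   (5071260073087467120849533896704, 162281714643541534827437126420480),
   (5093562336607332742096373254144, 163034382187426660976807653771264),
   (855787388333392741666759117996064, 122469524256718557090508245663776),
   (856421213633506856156404458291232, 122469524256718556879405234356256),
   (857685130970343147392771656089632, 163012099266719920448626510364704),
   (877336790877974315807097023987744, 122447241336011420245319544307744),
   (877336790877974315798541449134112, 121716856712833045874573486161952),
   (855787388333392741455652886511648, 122469524256718556879402014179360),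
   (857113222154463800737077286502432, 163034382187427057293572714889248),
   (857706776128373222967588912463904, 163012099266719920448386159968288),
   (857690862666107742518686588698656, 163018288966916347349932454281248),
   (857706776128373222959033337610272, 162281714643541546077640101822496),
   (857685130970343136133772755435552, 162281714643541534827437126418464),
   (857694696286870989171534464122912, 162598627293598601185010556960800),
   (5093562336607332742096373252128, 163034382187426660976807653769248),
   (45676429623483158942666027271200, 167489748148418602195939322070048),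
   (45676932548430034664053004141600, 188366368555368227859822415021088),
   (50747186771623353673270522119200, 862320887876573842178386098750496),
   (65961820450011907372430982743072, 855786846732267821954671654831136),
   (45697376677617846588494089126944, 188366368555368227859616390808608),
   (65961201464644573612761094915104, 855784370852115464217620927054880),
   (45697492738038304626673987978272, 167493461968647138801103331755040),
   (45697492738038304455150174045216, 188370082375587541092949569930272),
   (45697376677617846581003666162720, 163588998669058659513469321184288),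
   (45697492738038304450855206749216, 167510792713960924849931131388960),
   (45697608806722903665728626459680, 171418969417766968216715507368992),
   (49500560599143450630749973218336, 861021012112139241329747424281632),
   (45676932548430024530953976775712, 163588998669058649388066740995104),
   (45697982364801158957743588082720, 168801964174641575867874684273696),
   (45697995662984820060193854424096, 164302033997799384052099987899424),
   (65958684479869505797159198427168, 851862480018033648640192266930208),
   (65958702613756800016591584528416, 40587140852634683146970266109984),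
   (40605672475304917767225130190880, 1238507941156326169775278112),
   (40606330130950787817632914573344, 753905485142689281087761385504),
   (408592103327191660818024594769952, 94204851139171145519428815390752),
   (408592683611585075593909647804448, 94224657688673597139265293223968),
   (855787001477144300042378982557728, 130854111502406159082975237605408),
   (855787375035222555334393944180768, 128237106259280766734134414510112),
   (44491004187339399478954159081504, 123737176067090883849033371191328),
   (856420826777258414532024322852896, 130854111502406158871872226297888),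
   (856421200335336669824039284475936, 128237106259280766523031403202592),
   (45124829487453513968599499376672, 123737176067090883637930359883808),
   (857684473298168994344216339515424, 163012099283248203138429750446112),
   (857684473298168994335660764661792, 162259431739362691922735508064288),
   (857685130970343136133772587665440, 162259431739362680672532532660256),
   (5071260073087082063081225947168, 163012099283247806821903060011040),
   (65958684479869505797153829783584, 40566096400871877763697110779936),
   (45676313563075383040933724522528, 188366368555368227859616256591904),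
   (40605672475304917450565785585696, 851862441294627335870937559042080),
   (45676274876217835197290086762528, 162260669664105014779886795065376),
   (45676313563075383033443301558304, 163567953688390808048795901855776),
   (45676429623938562761063871383584, 167489747732850351527488682821664),
   (45676932548885428525273547114528, 163567953688390797923393321666592),
   (45676932548885078370402519058464, 164280989017131532587426568570912),
   (857687029045346799457013652883488, 188367606496624998348790379415584),
   (268982167483105459000122095536160, 251750202205591880609038877165600),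
   (857687029045346799450588381808672, 164876456311134093030833258596384),
   (857687106418960438030489408866336, 167490985674107122016628445906976),
   (857687609343907304920598991439904, 164876456311134084030231073622048),
   (86282605023772266689084403058720, 165549878767543541042993835378720),
   (877336775161938660808362110847008, 121698287628886187089449768290336),
   (857094637337852692395452256061472, 166184920223458718609789310568480),
   (25356729451459914590551768401952, 851865033360345926034786827208736),
   (25357387123634059766363311933472, 855786827404802002873163997874208),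
   (65963834661077691892403477252128, 42591367514068219228818570840096),
   (65957445293125457680293660035104, 40587141381539717969371461683232),
   (44411776024825134930252236163104, 42607460281231746605868805883936),
   (65967668281840938545251352676384, 42171705840750473063896673519648),
   (877336790877974315798300930967584, 121694573808654191719428542007328),
   (877336868251664047197574729402400, 124311598380425592827594944907296),
   (877336852535628384332693180090400, 125618863061912099444690748803104),
   (147170122520203623711694601160736, 126252672645990278806183025412128),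
   (855787001477144299831272751073312, 130854111502406158871869006120992),
   (855787375035222555123287712696352, 128237106259280766523028183025696),
   (44491004187339399267847927597088, 123737176067090883637927139706912),
   (857112835298215359112697151064096, 171418969433114659286039706830880),
   (857113208856293614404712112687136, 168801964189989266937198883735584),
   (45816838008410458549272327587872, 164302033997799384052097840416800),
   (857706776128373222958792819443744, 162259431739362691922495157667872),
   (857684473298168983085217438861344, 162259431739362680672292182263840),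
   (5092904664433179693541056677920, 163012099283247806821662709614624),
   (45697376677630528717348183050272, 163567953688390808048589877643296),
   (45676313563075372907834697156640, 163567953688390797923187297454112),
   (45697376677630168437074574805024, 164280989017131532587220544358432),
   (857706853502062954358066617878560, 164876456311134093030661560567840),
   (408592103327191660571733992245280, 864936415586808507164690659510304),
   (857687029045346790449814498805792, 164876456311134084030059375593504),
   (86301848690801792907506742298656, 165549878767543541042822137350176),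
   (411127404527648119445096142833696, 175334566509473561098080433047584),
   (147170106804167960840219203307552, 855785593077336291486239593433120),
   (268987124230081601927967510988832, 251235219149249157911081314781216),
   (5093059411660457020606317168672, 167493442641181319719595674798112),
   (857684628045396260240758885419040, 162264383499672007832137321515040),
   (5093059411660456849082503235616, 188370063048121722011441912973344),
   (411127481901679115607534544717856, 175337042403783794911565869844512),
   (5070757148140195086990315718688, 162264383915239862183820752160800),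
   (857690862666121577573443335981088, 168801964189989272563333311072288),
   (857690862666121571947242336651296, 168801964189989266937132311742496),
   (46394478520054400330881629784096, 164285940777288674108457579808800),
   (208099158211668057474492908275744, 169356548029404890996083618056224),
   (857684473298168983076661864007712, 162281714660563267912656522151968),
   (5092904664433179684985481824288, 162281714660562882854888381974560),
   (45676313563075372900344274192416, 163588998669058649380370159601696),
   (45697376677630168429584151840800, 163588980535171005006061510952992),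
   (857687029045346790443389227730976, 164896263351762650108032490506272),
   (86301848690801792901081471223840, 164896246426800860251250128685088),
   (5093059411660456844787535939616, 167510773386495105768423474432032),
   (857690862666121571944012521244704, 168801964189989266933902496335904),
   (208099158211668057471263092869152, 168801950891805040629698994997280),
   (857693418413297073467730671274016, 171418969433114655908342133786656),
   (5093175480345056059660955650080, 171418950090301149135207850412064),
   (289324208756729090548844478957600, 171418958552782138639191206103072),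
   (8896127272765603024682302408736, 861020992784673422248239767324704),
   (5071260073087070804082325293088, 162281714660562871604685406570528),
   (45676932548885068237303491692576, 163588980535170994880658930763808),
   (86282605023772257681885248981024, 164896246426800851250647943710752),
   (5093549038423311351675917273120, 168801944847175756786367027316768),
   (208099622450103256354301235267616, 168801950891805035003497995667488),
   (289310580535964571457557807335456, 171418958552782135262590997202976),
   (46398312140817646983729505208352, 163866279103970927943535682488352),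
   (329916291698112831263805664233504, 172739841783852618321642012117024),
   (8873825009245341087767766075424, 851870140014275879998285884262432)]

lemma c1a : ∀ x, top par1 (fun _ => 0) 22 x = 0 := by decide +kernel
lemma c2a : ∀ x, top par2 (fun _ => 0) 22 x = 0 := by decide +kernel
lemma c1b : ∀ v, (gr par1).degree v = if v.1 < 12 then 1 else 3 := by decide +kernel
lemma c2b : ∀ v, (gr par2).degree v = if v.1 < 12 then 1 else 3 := by decide +kernel
lemma c1c : ∀ v x, x ≠ v → par1 x ≠ v → col1 v x = col1 v (par1 x) := by decide +kernel
lemma c2c : ∀ v x, x ≠ v → par2 x ≠ v → col2 v x = col2 v (par2 x) := by decide +kernel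
lemma c1d : ∀ i j : Fin 12, M1 i j < 2 ^ 22 ∧
    ∀ v : W, (M1 i j).testBit v = true → col1 v (lf i) ≠ col1 v (lf j) := by decide +kernel
lemma c2d : ∀ i j : Fin 12, M2 i j < 2 ^ 22 ∧
    ∀ v : W, (M2 i j).testBit v = true → col2 v (lf i) ≠ col2 v (lf j) := by decide +kernel

def T1 : PTree 12 := mkT par1 c1a c1b
def T2 : PTree 12 := mkT par2 c2a c2b

def ok (i x : ℕ) (P : List (ℕ × ℕ)) : Bool :=
  P.all fun p => p.1 != x && (p.2 == x ||
    (M1 x i &&& M1 p.2 p.1 == 0 && M2 x i &&& M2 p.2 p.1 == 0))

def fin (P : List (ℕ × ℕ)) : Bool :=
  P.length != 4 || (P.all fun p => P.all fun q => p.2 == q.2) || L8.contains P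

def go : ℕ → ℕ → List (ℕ × ℕ) → Bool
  | 0, _, P => fin P
  | k + 1, i, P => go k (i + 1) P && (decide (4 ≤ P.length) ||
      (List.range i).all fun x => !ok i x P || go k (i + 1) ((i, x) :: P))

lemma go_ok : go 12 0 [] = true := by decide +kernel

def pre (ρ : ℕ → ℕ) : ℕ → List (ℕ × ℕ)
  | 0 => []
  | m + 1 => if ρ m = m then pre ρ m else (m, ρ m) :: pre ρ m

lemma go_fin (ρ : ℕ → ℕ) (h : ∀ i < 12, ρ i ≠ i →
      ρ i < i ∧ (pre ρ i).length < 4 ∧ ok i (ρ i) (pre ρ i) = true) :
    ∀ k m, m + k = 12 → go k m (pre ρ m) = true → fin (pre ρ 12) = true := by
  intro k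
  induction k with
  | zero => intro m hm hg; obtain rfl : m = 12 := by omega
            exact hg
  | succ k ih =>
    intro m hm hg
    simp only [go, List.all_eq_true, List.mem_range, Bool.and_eq_true, decide_eq_true_eq,
      Bool.or_eq_true, Bool.not_eq_true'] at hg
    refine ih (m + 1) (by omega) ?_
    rw [pre]
    split_ifs with hm'
    · exact hg.1
    obtain ⟨h1, h2, h3⟩ := h m (by omega) hm'
    rcases hg.2 with h4 | h4
    · omega
    rcases h4 _ h1 with h5 | h5
    · rw [h3] at h5; exact absurd h5 (by simp)
    · exact h5

lemma mem_pre (ρ : ℕ → ℕ) (m : ℕ) (p : ℕ × ℕ) :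
    p ∈ pre ρ m ↔ p.1 < m ∧ ρ p.1 ≠ p.1 ∧ p.2 = ρ p.1 := by
  induction m with
  | zero => simp [pre]
  | succ m ih =>
    rw [pre]
    split_ifs with h
    · rw [ih]
      refine ⟨fun h1 => ⟨by omega, h1.2⟩, fun h1 => ⟨?_, h1.2⟩⟩
      by_contra h2
      obtain h3 : p.1 = m := by omega
      exact h1.2.1 (h3 ▸ h)
    · rw [List.mem_cons, ih]
      constructor
      · rintro (rfl | h1)
        · exact ⟨by simp, h, rfl⟩
        · exact ⟨by omega, h1.2⟩
      · intro h1
        by_cases h3 : p.1 = m
        · left; exact Prod.ext h3 (h3 ▸ h1.2.2)
        · right; exact ⟨by omega, h1.2⟩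

lemma len_pre (ρ : ℕ → ℕ) (m : ℕ) :
    (pre ρ m).length = ((Finset.range m).filter fun j => ρ j ≠ j).card := by
  induction m with
  | zero => simp [pre]
  | succ m ih =>
    rw [pre, Finset.range_add_one, Finset.filter_insert]
    by_cases h : ρ m = m
    · rw [if_pos h, if_neg (not_not.2 h), ih]
    · rw [if_neg h, if_pos h, Finset.card_insert_of_notMem (by simp), List.length_cons, ih]

lemma look_pre (ρ : ℕ → ℕ) (m i : ℕ) :
    ((pre ρ m).lookup i).getD i = if i < m then ρ i else i := by
  induction m with
  | zero => simp [pre]
  | succ m ih =>
    rw [pre]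
    by_cases h3 : i = m
    · subst h3
      split_ifs with h h1 h1 <;> simp_all
    · have h4 : (i < m + 1) = (i < m) := by simp; omega
      have h5 : (i == m) = false := by simpa using h3
      by_cases h : ρ m = m
      · simp only [if_pos h, h4, ih]
      · simp only [if_neg h, h4, List.lookup_cons, h5, ih]

def K8 (l : List (ℕ × ℕ)) : Setoid (Fin 12) :=
  Setoid.ker fun i : Fin 12 => (l.lookup i.1).getD i.1

lemma upper (r : Setoid (Fin 12)) (h1 : r ∈ chars T1) (h2 : r ∈ chars T2)
    (h3 : r.classes.ncard = 8) (h4 : Nontriv r) : r ∈ L8.map K8 := by
  classical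
  obtain ⟨σ, s1, s2, s3⟩ : ∃ σ : Fin 12 → Fin 12, (∀ i, r i (σ i)) ∧
      (∀ i j, r i j → σ i = σ j) ∧ ∀ i, σ i ≤ i := by
    refine ⟨fun i => (Finset.univ.filter fun j => r i j).min' ⟨i, by simp⟩,
      fun i => ?_, fun i j h => ?_, fun i => Finset.min'_le _ _ (by simp)⟩
    · simpa using Finset.min'_mem (Finset.univ.filter fun j => r i j) ⟨i, by simp⟩
    · have : (Finset.univ.filter fun k => r i k) = Finset.univ.filter fun k => r j k := by
        ext k
        simpa using ⟨fun h' => r.trans' (r.symm' h) h', fun h' => r.trans' h h'⟩
      simp only [this]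
  set ρ : ℕ → ℕ := fun i => if h : i < 12 then (σ ⟨i, h⟩).1 else 0 with hρ
  have e : ∀ i : Fin 12, ρ i = σ i := fun i => by simp [hρ]
  have hnf : ((Finset.range 12).filter fun j => ρ j ≠ j).card = 4 := by
    rw [card_classes s1 s2] at h3
    have h5 := Finset.card_filter_add_card_filter_not (s := Finset.univ) fun i => σ i = i
    rw [h3, Finset.card_univ, Fintype.card_fin] at h5
    have h6 : (Finset.univ.filter fun i => ¬ σ i = i).card =
        ((Finset.range 12).filter fun j => ρ j ≠ j).card := by
      refine Finset.card_bij (fun i _ => i.1) ?_ (fun _ _ _ _ h => Fin.ext h) ?_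
      · intro i hi
        simpa [e, Fin.ext_iff] using hi
      · intro j hj
        simp only [Finset.mem_filter, Finset.mem_range] at hj
        refine ⟨⟨j, hj.1⟩, ?_, rfl⟩
        have := e ⟨j, hj.1⟩
        simp only [Finset.mem_filter, Finset.mem_univ, true_and, Fin.ext_iff]
        rw [← this]
        exact hj.2
    omega
  have hf := go_fin ρ (fun i hi hx => ?_) 12 0 rfl go_ok
  · simp only [fin, len_pre, hnf, bne_self_eq_false, Bool.false_or, Bool.or_eq_true,
      List.contains_iff_mem, List.all_eq_true, beq_iff_eq] at hf
    rcases hf with hf | hf
    · exfalso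
      obtain ⟨i, j, hi, hj, hij⟩ := (nontriv_iff s1 s2).1 h4
      refine hij (Fin.ext (hf (i, σ i) ?_ (j, σ j) ?_))
      · exact (mem_pre _ _ _).2 ⟨i.2, by rw [e]; exact fun h => hi (Fin.ext h), (e i).symm⟩
      · exact (mem_pre _ _ _).2 ⟨j.2, by rw [e]; exact fun h => hj (Fin.ext h), (e j).symm⟩
    · refine List.mem_map.2 ⟨_, hf, Setoid.ext fun i j => ?_⟩
      show ((pre ρ 12).lookup i.1).getD i.1 = ((pre ρ 12).lookup j.1).getD j.1 ↔ _
      rw [look_pre, look_pre, if_pos i.2, if_pos j.2, e, e, ← Fin.ext_iff]
      exact ⟨fun h => r.trans' (s1 i) (h ▸ r.symm' (s1 j)), s2 i j⟩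
  · obtain ⟨i, rfl⟩ : ∃ i' : Fin 12, i'.1 = i := ⟨⟨i, hi⟩, rfl⟩
    rw [e] at hx ⊢
    refine ⟨lt_of_le_of_ne (s3 i) hx, ?_, ?_⟩
    · rw [← hnf, len_pre]
      refine Finset.card_lt_card ⟨fun j => ?_, fun h => ?_⟩
      · simp only [Finset.mem_filter, Finset.mem_range]
        exact fun h => ⟨by omega, h.2⟩
      · have := @h i (by simpa [e] using hx)
        simp at this
    simp only [ok, Bool.or_eq_true, beq_iff_eq, Bool.and_eq_true, List.all_eq_true, mem_pre,
      bne_iff_ne]
    rintro ⟨j, y⟩ ⟨hj, hj2, hy⟩
    obtain ⟨j, rfl⟩ : ∃ j' : Fin 12, j'.1 = j := ⟨⟨j, by omega⟩, rfl⟩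
    simp only [e] at hj hj2 hy ⊢
    subst hy
    refine ⟨fun h => hj2 ?_, ?_⟩
    · rw [Fin.ext h, s2 _ _ (r.symm' (s1 i))]
    by_cases hy : σ j = σ i
    · left; rw [hy]
    right
    have hn : ¬ r (σ i) (σ j) := fun h => hy (by
      have := s2 _ _ h
      rw [s2 _ _ (r.symm' (s1 i)), s2 _ _ (r.symm' (s1 j))] at this
      exact this.symm)
    exact ⟨quart c1c c1d h1 (r.symm' (s1 i)) (r.symm' (s1 j)) hn,
      quart c2c c2d h2 (r.symm' (s1 i)) (r.symm' (s1 j)) hn⟩

def lb (c : ℕ) (v : W) : ℕ := c >>> (5 * v.1) % 32

def Kc (c : ℕ) : Setoid (Fin 12) := Setoid.ker fun i : Fin 12 => lb c (lf i)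

def rp (c : ℕ) (i : Fin 12) : Fin 12 := Fin.ofNat 12 (lb c (lf i))

def good (par : W → W) (c : ℕ) : Bool :=
  (List.finRange 12).all fun i => top par (lb c) 12 (lf i) == top par (lb c) 12 (lf (rp c i))

lemma mem_chars {par h1 h2} {c : ℕ} (h : good par c = true) : Kc c ∈ chars (mkT par h1 h2) := by
  simp only [good, List.all_eq_true, List.mem_finRange, true_imp_iff, beq_iff_eq] at h
  refine ⟨cutE (lb c), fun i j => ⟨fun hij => ?_, fun hij => lab_eq hij⟩⟩
  have h3 : rp c i = rp c j := by
    have hij' : lb c (lf i) = lb c (lf j) := hij
    simp only [rp, hij']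
  have h4 := reach_top par (lb c) 12 (lf i)
  have h5 := reach_top par (lb c) 12 (lf j)
  rw [h i, h3, ← h j] at h4
  exact h4.trans h5.symm

def key (c : ℕ) : ℕ := ∑ i : Fin 12, (rp c i).1 * 16 ^ i.1

def chk (k : ℕ) (p : ℕ × ℕ) : Bool :=
  good par1 p.1 && good par2 p.2 &&
  ((List.finRange 12).all fun i => lb p.1 (lf i) == lb p.2 (lf i) &&
    lb p.1 (lf (rp p.1 i)) == lb p.1 (lf i) && decide (rp p.1 i ≤ i)) &&
  (Finset.univ.filter fun i => rp p.1 i = i).card == k &&
  (List.finRange 12).any fun i => rp p.1 i != i && (List.finRange 12).any fun j =>
    rp p.1 j != j && rp p.1 i != rp p.1 j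

lemma lower (k : ℕ) (L : List (ℕ × ℕ)) (h : L.all (chk k) = true)
    (hn : (L.map fun p => key p.1).Nodup) : L.length ≤ a T1 T2 k := by
  classical
  simp only [chk, List.all_eq_true, Bool.and_eq_true, List.mem_finRange, true_imp_iff, beq_iff_eq,
    decide_eq_true_eq, List.any_eq_true, true_and, bne_iff_ne] at h
  have s1 : ∀ p ∈ L, ∀ i, Kc p.1 i (rp p.1 i) := fun p hp i => ((h p hp).1.1.2 i).1.2.symm
  have s2 : ∀ c i j, Kc c i j → rp c i = rp c j := fun c i j hij => by
    have hij' : lb c (lf i) = lb c (lf j) := hij
    simp only [rp, hij']
  have h1 : (L.map fun p => Kc p.1).Nodup := by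
    refine List.Nodup.map_on (fun p hp q hq hpq => ?_) (List.Nodup.of_map _ hn)
    refine List.inj_on_of_nodup_map hn hp hq ?_
    have : ∀ i, rp p.1 i = rp q.1 i := fun i => le_antisymm
      ((s2 _ _ _ (hpq ▸ s1 q hq i)).trans_le ((h p hp).1.1.2 _).2)
      ((s2 _ _ _ (hpq ▸ s1 p hp i)).trans_le ((h q hq).1.1.2 _).2)
    simp only [key, this]
  rw [← List.length_map (f := fun p => Kc p.1), ← List.toFinset_card_of_nodup h1,
    ← Set.ncard_coe_finset]
  refine Set.ncard_le_ncard (fun r hr => ?_) (Set.toFinite _)
  simp only [List.coe_toFinset, List.mem_map, Set.mem_ofPred_eq] at hr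
  obtain ⟨p, hp, rfl⟩ := hr
  obtain ⟨⟨⟨⟨g1, g2⟩, g3⟩, g4⟩, i, hi, j, hj, hij⟩ := h p hp
  refine ⟨mem_chars g1, ?_, by rw [card_classes (s1 p hp) (s2 _), g4],
    (nontriv_iff (s1 p hp) (s2 _)).2 ⟨i, j, hi, hj, hij⟩⟩
  have : Kc p.1 = Kc p.2 := by
    unfold Kc
    rw [funext fun i => (g3 i).1.1]
  rw [this]
  exact mem_chars g2

lemma k7 : L7.all (chk 7) = true := by decide +kernel
lemma k9 : L9.all (chk 9) = true := by decide +kernel
lemma n7 : (L7.map fun p => key p.1).Nodup := by decide +kernel
lemma n9 : (L9.map fun p => key p.1).Nodup := by decide +kernel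

theorem result : ∃ (n : ℕ) (T F : PTree n) (k : ℕ), 1 < k ∧ k < n ∧
    a T F k ^ 2 < a T F (k - 1) * a T F (k + 1) := by
  classical
  refine ⟨12, T1, T2, 8, by norm_num, by norm_num, ?_⟩
  have h7 : 56 ≤ a T1 T2 7 := lower 7 L7 k7 n7
  have h9 : 126 ≤ a T1 T2 9 := lower 9 L9 k9 n9
  have h8 : a T1 T2 8 ≤ 83 := by
    have h1 : a T1 T2 8 ≤ ((L8.map K8).toFinset : Set (Setoid (Fin 12))).ncard :=
      Set.ncard_le_ncard (fun r hr => by
        simpa using upper r hr.1 hr.2.1 hr.2.2.1 hr.2.2.2) (Set.toFinite _)
    rw [Set.ncard_coe_finset] at h1
    have h2 := List.toFinset_card_le (L8.map K8)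
    rw [List.length_map] at h2
    exact h1.trans h2
  show a T1 T2 8 ^ 2 < a T1 T2 7 * a T1 T2 9
  calc a T1 T2 8 ^ 2 ≤ 83 ^ 2 := Nat.pow_le_pow_left h8 2
    _ < 56 * 126 := by norm_num
    _ ≤ _ := Nat.mul_le_mul h7 h9

end Pool.Agent.Results.MP_8b9f13_co.NotLogConcave
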